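import Pool.Agent.Lib.MP_9cec2c_lc.CSIff

/-!
Constraint satisfaction problems in Frege systems of constant depth with counting gates modulo primes.

A constraint language is a finite set of relations on a finite set. The polymorphisms of a language
decide whether its unsatisfiable instances have short refutations. If there is a map from the
polymorphisms to the projections that preserves minors (the case in which the problem is
NP-complete by the theorem of Bulatov and Zhuk), then there are instances which are exponentially hard
for all primes at once, and similarly for maps to the affine operations modulo `r` and all primes that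
do not divide `r`. For Boolean languages and for graphs this gives complete classifications, as in the
theorems of Schaefer and of Hell and Nešetřil.

The hard instances are made of Tseitin formulas of tori. Let the values of the edges of a torus be
pairs of residues modulo 2 and 3, and let the constraint `c` say that an equation modulo 2 at one
vertex or an equation modulo 3 at another vertex holds; let `R c` be its set of solutions. The
variables of the hard instance are all functions `R c → A`, where a function of the value of one edge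
is the same variable for all `c`. The constraints are those that hold for the functions at every point
of `R c`. A solution of the instance is a family of polymorphisms with the arguments indexed by `R c`
such that the minors along an edge do not depend on `c`; the map to the projections turns it into
elements of the sets `R c` that fit together, so the equations modulo 2 or the equations modulo 3
would have a solution. On the other hand, if the values of the edges in `c` satisfy the constraint `c`,
then every variable of the instance has a value, the value of the function, which depends on few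
edges, and all constraints hold. So a false clause of the instance gives a false clause of the Tseitin
formulas close to it, and the lower bound for the Tseitin formulas modulo 2 and modulo 3, in the form
of flat worlds, which allows such substitutions, carries over to the instance.

A Boolean clone without a constant, the conjunction, the disjunction and the majority consists of odd
sums of variables and their negations. The polymorphisms of a graph without loops that is not
bipartite are mapped to the projections by a sequence of reductions to a graph with a triangle and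
without diamonds, in which the largest induced power of the triangle is preserved.
-/

set_option autoImplicit false

namespace Pool.Agent.Results.MP_9cec2c_lc.CspClassification

open Pool.Agent.MP_9cec2c_lc.FG
open Pool.Agent.MP_9cec2c_lc.MX
open Pool.Agent.MP_9cec2c_lc.CS

theorem result :
    (∀ (A : Type) [Fintype A] (Γ : CLang A),
      (Γ.ToProjections → ∀ P : Finset ℕ, P.Nonempty → (∀ p ∈ P, p.Prime) →
        Γ.Hard fun Q => ¬ P ⊆ Q) ∧
      ∀ r : ℕ, 2 ≤ r → Γ.ToAffine r → Γ.Hard fun Q => ∀ q ∈ Q, q.Coprime r) ∧
    (∃ S₀ : ℕ → Set Rule, (∀ q : ℕ, q.Prime → (S₀ q).Finite ∧ (∀ R ∈ S₀ q, R.Sound q) ∧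
      ∀ (V : Type) [Fintype V] (Φ : Set (Form V)) (φ : Form V) (d : ℕ),
        (∀ ψ ∈ Φ, ψ.Small q ∧ ψ.depth + 1 ≤ d) → φ.Small q → φ.depth + 1 ≤ d →
        (∀ x : V → Bool, (∀ ψ ∈ Φ, ψ.eval q x) → φ.eval q x) →
        ∃ (l : ℕ) (L : Fin l → Form V), IsDerivation (S₀ q) d Φ L ∧ ∃ i, L i = φ) ∧
      (∀ Γ : CLang Bool,
        (Γ.Easy → Γ.Short S₀) ∧ (bSum ∈ Γ.Pol 3 → Γ.Poly {2} S₀ 4) ∧
        (¬ Γ.Easy → Γ.Hard fun Q => 2 ∉ Q) ∧
        (¬ Γ.Easy → bSum ∉ Γ.Pol 3 → ∀ P : Finset ℕ, P.Nonempty → (∀ p ∈ P, p.Prime) →
          Γ.Hard fun Q => ¬ P ⊆ Q) ∧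
        ∀ Q : Finset ℕ, Q.Nonempty → (∀ q ∈ Q, q.Prime) → ∀ S : ℕ → Set Rule,
          (∀ q ∈ Q, (S q).Finite ∧ S₀ q ⊆ S q ∧ ∀ R ∈ S q, R.Sound q) →
          ((∃ d, Γ.Poly Q S d) ↔ Γ.Easy ∨ (2 ∈ Q ∧ bSum ∈ Γ.Pol 3))) ∧
      ∀ (A : Type) [Fintype A] (E : A → A → Prop), (∀ a b, E a b → E b a) →
        (((∃ a, E a a) ∨ ∃ c : A → Bool, ∀ a b, E a b → c a ≠ c b) → (graphLang E).Short S₀) ∧
        (¬ ((∃ a, E a a) ∨ ∃ c : A → Bool, ∀ a b, E a b → c a ≠ c b) →
          ∀ P : Finset ℕ, P.Nonempty → (∀ p ∈ P, p.Prime) →
            (graphLang E).Hard fun Q => ¬ P ⊆ Q) ∧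
        ∀ Q : Finset ℕ, Q.Nonempty → (∀ q ∈ Q, q.Prime) → ∀ S : ℕ → Set Rule,
          (∀ q ∈ Q, (S q).Finite ∧ S₀ q ⊆ S q ∧ ∀ R ∈ S q, R.Sound q) →
          ((∃ d, (graphLang E).Poly Q S d) ↔
            (∃ a, E a a) ∨ ∃ c : A → Bool, ∀ a b, E a b → c a ≠ c b)) ∧
    ∀ (V : Type) (p : ℕ) (S : ℕ → Set Rule) (d : ℕ) (F : List (List (V × Bool))) (l : ℕ)
      (τ : Fin l → ℕ) (L : Fin l → Form V),
      MixedRefutes {p} S d F τ L ↔ (∀ i, τ i = p) ∧ Refutes (S p) d F L := by
  refine ⟨fun A _ Γ => ⟨fun h P hP hp => ?_, fun r hr h => ?_⟩,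
    ⟨fun q => stdRules q ∪ (insert Pool.Agent.MP_9cec2c_lc.TU.kN
      (Pool.Agent.MP_9cec2c_lc.CE.ceRules q) ∪ Pool.Agent.MP_9cec2c_lc.TY.tyRules),
    fun q hq => ⟨?_, ?_, ?_⟩, fun Γ => ⟨fun h => ?_, fun h => ?_, fun h => hard_of_not_easy h,
      fun h hs P hP hp => hard_proj (proj_of_not_easy h hs) P hP hp, ?_⟩,
    fun A _ E hsymm => ⟨fun h => ?_, fun h P hP hp => hard_graph hsymm h P hP hp, ?_⟩⟩,
    fun V p S d F l τ L => mixed_single⟩
  · have := nonempty_of_proj h
    exact hard_proj h P hP hp
  · have := nonempty_of_affine hr h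
    exact hard_aff hr h
  · exact (stdRules_finite q).union
      (((Pool.Agent.MP_9cec2c_lc.CE.ceRules_finite q).insert _).union
        Pool.Agent.MP_9cec2c_lc.TY.tyRules_finite)
  · have : Fact q.Prime := ⟨hq⟩
    rintro R (hR' | (rfl | hR') | hR')
    · exact stdRules_sound q R hR'
    · exact Pool.Agent.MP_9cec2c_lc.TU.kN_sound q
    · exact Pool.Agent.MP_9cec2c_lc.CE.ceRules_sound q R hR'
    · exact Pool.Agent.MP_9cec2c_lc.TY.tyRules_sound q R hR'
  · intro V _ Φ φ d hΦ hφ hd h
    obtain ⟨l, L, hL, hi⟩ := complete hq.pos (fun ψ hψ => (hΦ ψ hψ).1) hφ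
      (fun ψ hψ => (hΦ ψ hψ).2) hd h
    exact ⟨l, L, hL.mono_rules Set.subset_union_left, hi⟩
  · obtain ⟨C, hC⟩ := easy_width Γ h
    refine ⟨C, fun X _ I hI => ?_⟩
    obtain ⟨l, L, h1, h2, h3, h4⟩ := hC X I hI
    exact ⟨l, L, fun q _ => h1.mono_rules
      (Set.subset_union_right.trans Set.subset_union_right), h2, h3, h4⟩
  · obtain ⟨C, hC⟩ := easy_affine Γ h
    refine ⟨C, fun X _ I hI => ?_⟩
    obtain ⟨l, L, h1, h2, h3⟩ := hC X I hI
    refine ⟨l, _, L, mixed_of_der (Finset.mem_singleton_self 2) ?_ h1, h2, h3⟩
    exact Set.union_subset (Set.subset_union_right.trans Set.subset_union_right)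
      (Set.subset_union_left.trans Set.subset_union_right)
  · intro Q hQ0 hQ S hS
    exact classify (fun q => Set.subset_union_right.trans Set.subset_union_right)
      (fun q => Set.subset_union_left.trans Set.subset_union_right) Q hQ0 hQ S hS Γ
  · obtain ⟨C, hC⟩ := easy_graph E hsymm h
    refine ⟨C, fun X _ I hI => ?_⟩
    obtain ⟨l, L, h1, h2, h3, h4⟩ := hC X I hI
    exact ⟨l, L, fun q _ => h1.mono_rules
      (Set.subset_union_right.trans Set.subset_union_right), h2, h3, h4⟩
  · intro Q hQ0 hQ S hS
    exact classify_graph (fun q => Set.subset_union_right.trans Set.subset_union_right)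
      Q hQ0 hQ S hS E hsymm

end Pool.Agent.Results.MP_9cec2c_lc.CspClassification
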